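import Mathlib

namespace Pool.Agent.Results.MP_79bc23_co.WidthFive

def up (i : ℕ) : ℕ := [29697, 10242, 16388, 29704, 10256, 32572, 32727, 31875, 31508, 27156, 29696, 10240, 28672, 8192, 16384].getD i 0

def leb (x y : Fin 15) : Bool := (up x.val).testBit y.val

def PP : Type := Fin 15
instance : Fintype PP := inferInstanceAs (Fintype (Fin 15))
instance : DecidableEq PP := inferInstanceAs (DecidableEq (Fin 15))

instance : PartialOrder PP where
  le x y := leb x y = true
  le_refl := by change ∀ x : Fin 15, leb x x = true; decide +kernel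
  le_trans := by
    change ∀ x y z : Fin 15, leb x y = true → leb y z = true → leb x z = true; decide +kernel
  le_antisymm := by
    change ∀ x y : Fin 15, leb x y = true → leb y x = true → x = y; decide +kernel

def incs : List (ℕ × List ℕ) :=
  [(0, [1, 2, 3, 4, 5, 8, 9, 11]), (1, [0, 2, 3, 4, 5, 8, 9, 10, 12, 14]), (2, [0, 1, 3, 4, 7, 10, 11, 12, 13]), (3, [0, 1, 2, 4, 6, 7, 8, 9, 11]), (4, [0, 1, 2, 3, 7, 10, 12, 14]), (5, [0, 1, 6, 7]), (6, [3, 5]), (7, [2, 3, 4, 5, 8, 9]), (8, [0, 1, 3, 7, 10]), (9, [0, 1, 3, 7, 10, 12]), (10, [1, 2, 4, 8, 9, 11]), (11, [0, 2, 3, 10, 12, 14]), (12, [1, 2, 4, 9, 11]), (13, [2, 14]), (14, [1, 4, 11, 13])]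

def kk (x : ℕ) : List ℕ := [[5, 8, 11], [8, 12], [12, 13], [6, 8], [7, 12, 14], [6], [5], [5, 8], [7, 10], [7, 12], [8, 11], [12, 14], [9, 11], [14], [13]].getD x []

def chk (m : ℕ) : Bool :=
  !(incs.all (fun p => m.testBit p.1 == p.2.all (fun j => !m.testBit j))) ||
    (List.range 15).all (fun x => m.testBit x || (kk x).any (fun j => m.testBit j))

theorem chk_all : (List.range 32768).all chk = true := by decide +kernel

theorem incs_spec : ∀ p ∈ incs, ∃ i : Fin 15, i.val = p.1 ∧ (∀ j ∈ p.2, j < 15) ∧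
    ∀ j : Fin 15, j.val ∈ p.2 ↔ (¬ leb i j = true ∧ ¬ leb j i = true) := by decide +kernel

theorem kk_lt : ∀ x : Fin 15, ∀ j ∈ kk x.val, j < 15 := by decide +kernel

theorem kk_chain : ∀ x a b : Fin 15, a.val ∈ kk x.val → b.val ∈ kk x.val →
    leb a b = true ∨ leb b a = true := by decide +kernel

theorem kk_inc : ∀ x a : Fin 15, a.val ∈ kk x.val → ¬ leb a x = true ∧ ¬ leb x a = true := by
  decide +kernel

theorem result : ∃ (P : Type) (_ : Fintype P) (_ : PartialOrder P),
    (∀ x : P, ∃ K : Set P, IsChain (· ≤ ·) K ∧ (∀ k ∈ K, ¬ k ≤ x ∧ ¬ x ≤ k) ∧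
      ∀ C : Set P, IsMaxChain (· ≤ ·) C → (C ∩ insert x K).Nonempty) ∧
    ∃ A : Set P, IsAntichain (· ≤ ·) A ∧ A.ncard = 5 := by
  classical
  refine ⟨PP, inferInstance, inferInstance, ?_, ?_⟩
  · intro x
    refine ⟨{a : Fin 15 | a.val ∈ kk (Fin.val (n := 15) x)}, ?_, ?_, ?_⟩
    · intro a ha b hb _
      exact kk_chain x a b ha hb
    · intro a ha
      exact kk_inc x a ha
    · intro C hC
      let f : Fin 15 → Bool := fun i => decide ((show PP from i) ∈ C)
      have hm : Nat.ofBits f < 32768 := Nat.ofBits_lt_two_pow f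
      have hb : ∀ i : Fin 15, (Nat.ofBits f).testBit i.val = true ↔ (show PP from i) ∈ C := by
        intro i
        rw [Nat.testBit_ofBits_lt f i.val i.isLt]
        simp [f]
      have h1 := List.all_eq_true.1 chk_all _ (List.mem_range.2 hm)
      have h2 : incs.all (fun p => (Nat.ofBits f).testBit p.1 ==
          p.2.all (fun j => !(Nat.ofBits f).testBit j)) = true := by
        rw [List.all_eq_true]
        intro p hp
        obtain ⟨i, hi, hlt, hspec⟩ := incs_spec p hp
        rw [beq_iff_eq, Bool.eq_iff_iff, ← hi, hb, List.all_eq_true]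
        constructor
        · intro hiC j hj
          have hj' := (hspec ⟨j, hlt j hj⟩).1 hj
          have : ¬ (Nat.ofBits f).testBit j = true := by
            intro h
            have hjC := (hb ⟨j, hlt j hj⟩).1 h
            rcases hC.1.total hiC hjC with h | h
            · exact hj'.1 h
            · exact hj'.2 h
          simpa using this
        · intro h
          have hch : IsChain (· ≤ ·) (insert (show PP from i) C) := by
            apply hC.1.insert
            intro b hbC _
            by_contra hn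
            rw [not_or] at hn
            have := h _ ((hspec b).2 hn)
            rw [(hb b).2 hbC] at this
            simp at this
          rw [hC.2 hch (Set.subset_insert _ _)]
          exact Set.mem_insert _ _
      rw [chk, h2] at h1
      simp only [Bool.not_true, Bool.false_or] at h1
      have h3 := List.all_eq_true.1 h1 _ (List.mem_range.2 (Fin.isLt (n := 15) x))
      rw [Bool.or_eq_true, List.any_eq_true] at h3
      rcases h3 with h | ⟨j, hj, h⟩
      · exact ⟨x, (hb x).1 h, Set.mem_insert _ _⟩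
      · exact ⟨(⟨j, kk_lt x j hj⟩ : Fin 15), (hb ⟨j, kk_lt x j hj⟩).1 h,
          Set.mem_insert_of_mem _ hj⟩
  · refine ⟨((({0, 1, 2, 3, 4} : Finset (Fin 15)) : Set (Fin 15)) : Set PP), ?_, ?_⟩
    · have : ∀ a ∈ ({0, 1, 2, 3, 4} : Finset (Fin 15)), ∀ b ∈ ({0, 1, 2, 3, 4} : Finset (Fin 15)),
          a ≠ b → ¬ leb a b = true := by decide +kernel
      intro a ha b hb hab
      exact this a ha b hb hab
    · exact (Set.ncard_coe_finset ({0, 1, 2, 3, 4} : Finset (Fin 15))).trans (by decide)

end Pool.Agent.Results.MP_79bc23_co.WidthFive
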